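import Pool.Agent.H484.HH.Stm

/-!
PE: the error of a product from the Fourier expansion.
-/

set_option autoImplicit false

open Finset

namespace Pool.Agent.H484.HH

theorem PE_ft_zero {N : ℕ} [NeZero N] (f : ZMod N → ℝ) :
    ft f 0 = ((∑ x : ZMod N, f x : ℝ) : ℂ) := by
  rw [ft]
  push_cast
  refine Finset.sum_congr rfl fun x _ => ?_
  rw [zero_mul, neg_zero, AddChar.map_zero_eq_one, mul_one]

theorem PE_W_nonneg {N : ℕ} [NeZero N] (j : ℕ) (k : ZMod N) : 0 ≤ W j k := by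
  unfold W
  positivity

theorem PE_W_le_one {N : ℕ} [NeZero N] (j : ℕ) (k : ZMod N) : W j k ≤ 1 := by
  have h1 : (0 : ℝ) ≤ M k := le_trans zero_le_one (le_max_left _ _)
  have h2 : (1 : ℝ) ≤ 1 + 2 ^ j * M k / N := by
    have : (0 : ℝ) ≤ 2 ^ j * M k / N := by positivity
    linarith
  have h3 : (1 : ℝ) ≤ (1 + 2 ^ j * M k / N) ^ 2 := one_le_pow₀ h2
  unfold W
  exact div_le_one_of_le₀ h3 (by linarith)

theorem PE_term {N : ℕ} [NeZero N] {t : ℕ} (f0 : ZMod N → ℝ)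
    (f : Fin t → ZMod N → ℝ) (j0 : ℕ) (j : Fin t → ℕ)
    (h0 : ∀ k, ‖ft f0 k‖ ≤ 256 * 2 ^ j0 * W j0 k)
    (hf : ∀ i k, ‖ft (f i) k‖ ≤ 256 * 2 ^ j i * W (j i) k) (r : ZMod N) (k : Fin t → ZMod N) :
    1 / (N : ℝ) ^ t * ‖ft f0 r * ∏ i, ft (f i) (k i)‖ ≤
      256 ^ (t + 1) * (V N j0 j * (W j0 r * ∏ i, W (j i) (k i))) := by
  have e1 : 256 ^ (t + 1) * (V N j0 j * (W j0 r * ∏ i, W (j i) (k i))) =
      1 / (N : ℝ) ^ t * ((256 * 2 ^ j0 * W j0 r) * ∏ i, (256 * 2 ^ j i * W (j i) (k i))) := by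
    have e2 : ∏ i, (256 * 2 ^ j i * W (j i) (k i)) =
        256 ^ t * (∏ i, (2 : ℝ) ^ j i) * ∏ i, W (j i) (k i) := by
      rw [Finset.prod_mul_distrib, Finset.prod_mul_distrib, Finset.prod_const, Finset.card_univ,
        Fintype.card_fin]
    have e3 : V N j0 j = 2 ^ j0 * ((∏ i, (2 : ℝ) ^ j i) / (N : ℝ) ^ t) := by
      rw [V, Finset.prod_div_distrib, Finset.prod_const, Finset.card_univ, Fintype.card_fin]
    rw [e2, e3, pow_succ]
    ring
  rw [e1]
  refine mul_le_mul_of_nonneg_left ?_ (by positivity)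
  rw [norm_mul, norm_prod]
  refine mul_le_mul (h0 r) ?_ (Finset.prod_nonneg fun i _ => norm_nonneg _) ?_
  · exact Finset.prod_le_prod (fun i _ => norm_nonneg _) fun i _ => hf i (k i)
  · have := PE_W_nonneg j0 r
    positivity

theorem t_PE (hFE : S_FE) : S_PE := by
  intro N _ t h f0 f j0 j h0 hf
  have hN : (0 : ℝ) < N := by exact_mod_cast Nat.pos_of_ne_zero (NeZero.ne N)
  have hNC : (N : ℂ) ≠ 0 := by exact_mod_cast NeZero.ne N
  have hmain : (((∑ m, f0 m) * ∏ i, ((∑ m, f i m) / (N : ℝ)) : ℝ) : ℂ) =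
      1 / (N : ℂ) ^ t * (ft f0 0 * ∏ i, ft (f i) 0) := by
    rw [Finset.prod_div_distrib, Finset.prod_const, Finset.card_univ, Fintype.card_fin,
      PE_ft_zero]
    simp only [PE_ft_zero]
    push_cast
    ring
  constructor
  · have e1 : ((∑ m : ZMod N, f0 m * ∏ i, f i (h i * m) -
        (∑ m, f0 m) * ∏ i, ((∑ m, f i m) / (N : ℝ)) : ℝ) : ℂ) =
        ∑ k ∈ univ.filter (fun k : Fin t → ZMod N => k ≠ 0),
          1 / (N : ℂ) ^ t * (ft f0 (-(∑ i, k i * h i)) * ∏ i, ft (f i) (k i)) := by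
      rw [Complex.ofReal_sub, hFE N t h f0 f, hmain, ← Finset.mul_sum, ← mul_sub]
      congr 1
      rw [sub_eq_iff_eq_add, ← Finset.sum_filter_add_sum_filter_not univ
        (fun k : Fin t → ZMod N => k ≠ 0)]
      congr 1
      have e2 : univ.filter (fun k : Fin t → ZMod N => ¬ k ≠ 0) = {0} := by
        ext k
        simp
      rw [e2, Finset.sum_singleton]
      simp
    rw [← Real.norm_eq_abs, ← Complex.norm_real, e1]
    refine (norm_sum_le _ _).trans ?_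
    rw [Finset.mul_sum, Finset.mul_sum]
    refine Finset.sum_le_sum fun k _ => ?_
    refine le_trans (le_of_eq ?_) (PE_term f0 f j0 j h0 hf (-(∑ i, k i * h i)) k)
    rw [norm_mul]
    congr 1
    rw [norm_div, norm_one, norm_pow, Complex.norm_natCast]
  · rw [← Real.norm_eq_abs, ← Complex.norm_real, hmain]
    have e1 := PE_term f0 f j0 j h0 hf 0 0
    have e2 : ‖1 / (N : ℂ) ^ t * (ft f0 0 * ∏ i, ft (f i) 0)‖ =
        1 / (N : ℝ) ^ t * ‖ft f0 0 * ∏ i, ft (f i) ((0 : Fin t → ZMod N) i)‖ := by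
      rw [norm_mul]
      congr 1
      rw [norm_div, norm_one, norm_pow, Complex.norm_natCast]
    rw [e2]
    refine e1.trans ?_
    refine mul_le_mul_of_nonneg_left ?_ (by positivity)
    have hV : 0 ≤ V N j0 j := by
      unfold V
      positivity
    have e3 : W j0 (0 : ZMod N) * ∏ i, W (j i) ((0 : Fin t → ZMod N) i) ≤ 1 := by
      refine mul_le_one₀ (PE_W_le_one _ _) (Finset.prod_nonneg fun i _ => PE_W_nonneg _ _) ?_
      exact Finset.prod_le_one (fun i _ => PE_W_nonneg _ _) fun i _ => PE_W_le_one _ _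
    calc V N j0 j * (W j0 (0 : ZMod N) * ∏ i, W (j i) ((0 : Fin t → ZMod N) i))
        ≤ V N j0 j * 1 := mul_le_mul_of_nonneg_left e3 hV
      _ = V N j0 j := mul_one _

end Pool.Agent.H484.HH
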